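import Pool.Agent.Lib.MP_fdcc6d_al.Numeric

/-!
# Ext of Mathlib and the injective dimension for the Huneke–Wiegand counterexample
-/

set_option autoImplicit false

open PowerSeries CategoryTheory CategoryTheory.Abelian

namespace Pool.Agent.HunekeWiegand

/-- If every extension of `A` by `B` splits, then `Ext^1(A, B) = 0`. -/
theorem ext_one_subsingleton (S : Type) [CommRing S] (A B : Type) [AddCommGroup A] [Module S A]
    [AddCommGroup B] [Module S B]
    (hs : ∀ (E : Type) [AddCommGroup E] [Module S E] (f : B →ₗ[S] E) (g : E →ₗ[S] A),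
      Function.Injective f → Function.Surjective g → LinearMap.range f = LinearMap.ker g →
      ∃ s : A →ₗ[S] E, g.comp s = LinearMap.id) :
    Subsingleton (Ext (ModuleCat.of S A) (ModuleCat.of S B) 1) := by
  refine subsingleton_of_forall_eq 0 fun e => ?_
  let Y := ModuleCat.of S B
  let T := ShortComplex.mk _ _ (Limits.cokernel.condition (Injective.ι Y))
  have hT : T.ShortExact :=
    { exact := ShortComplex.exact_of_g_is_cokernel _ (Limits.cokernelIsCokernel T.f) }
  obtain ⟨x, hx⟩ := Ext.covariant_sequence_exact₁ (ModuleCat.of S A) hT e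
    (Ext.eq_zero_of_injective _) (rfl : 0 + 1 = 1)
  obtain ⟨g, rfl⟩ : ∃ g : ModuleCat.of S A ⟶ T.X₃, Ext.mk₀ g = x := ⟨_, Ext.mk₀_homEquiv₀_apply x⟩
  -- the pullback
  let p : T.X₂ →ₗ[S] T.X₃ := T.g.hom
  let q : A →ₗ[S] T.X₃ := g.hom
  let j : B →ₗ[S] T.X₂ := T.f.hom
  have hj : Function.Injective j := (ModuleCat.mono_iff_injective T.f).1 hT.mono_f
  have hp : Function.Surjective p := (ModuleCat.epi_iff_surjective T.g).1 hT.epi_g
  have hex : ∀ y, p y = 0 → ∃ b, j b = y := by
    intro y hy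
    have h1 := (ShortComplex.moduleCat_exact_iff T).1 hT.exact y hy
    exact h1
  have hpj : ∀ b, p (j b) = 0 := by
    intro b
    have h1 := T.zero
    have h2 := congrArg (fun φ => φ.hom b) h1
    exact h2
  let P : Submodule S (T.X₂ × A) :=
    LinearMap.ker ((p.comp (LinearMap.fst S T.X₂ A)) - (q.comp (LinearMap.snd S T.X₂ A)))
  have hP : ∀ z : T.X₂ × A, z ∈ P ↔ p z.1 = q z.2 := by
    intro z
    rw [LinearMap.mem_ker, LinearMap.sub_apply, sub_eq_zero]
    rfl
  let i : B →ₗ[S] P := LinearMap.codRestrict P (LinearMap.prod j 0) (by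
    intro b
    rw [hP]
    change p (j b) = q 0
    rw [hpj, map_zero])
  let π : P →ₗ[S] A := (LinearMap.snd S T.X₂ A).comp P.subtype
  have hi : Function.Injective i := by
    intro a b hab
    apply hj
    exact congrArg (fun z : P => z.1.1) hab
  have hπ : Function.Surjective π := by
    intro a
    obtain ⟨y, hy⟩ := hp (q a)
    exact ⟨⟨(y, a), (hP _).2 hy⟩, rfl⟩
  have hex' : LinearMap.range i = LinearMap.ker π := by
    apply le_antisymm
    · rintro _ ⟨b, rfl⟩
      rfl
    · rintro ⟨⟨y, a⟩, hz⟩ h0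
      have h0' : a = 0 := h0
      subst h0'
      have h1 := (hP _).1 hz
      simp only [map_zero] at h1
      obtain ⟨b, hb⟩ := hex y h1
      exact ⟨b, Subtype.ext (Prod.ext hb rfl)⟩
  obtain ⟨s, hsec⟩ := hs P i π hi hπ hex'
  let l : A →ₗ[S] T.X₂ := (LinearMap.fst S T.X₂ A).comp (P.subtype.comp s)
  have hl : p.comp l = q := by
    ext a
    have h1 := (hP _).1 (s a).2
    have h2 : (s a).1.2 = a := congrArg (fun φ : A →ₗ[S] A => φ a) hsec
    rw [h2] at h1
    exact h1
  have hg : g = ModuleCat.ofHom l ≫ T.g := by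
    ext a
    have h1 := congrArg (fun φ : A →ₗ[S] T.X₃ => φ a) hl
    exact h1.symm
  rw [← hx, hg, ← Ext.mk₀_comp_mk₀, Ext.comp_assoc_of_second_deg_zero,
    ShortComplex.ShortExact.comp_extClass, Ext.comp_zero]

noncomputable section

variable {G : ℕ → Prop} {F s d : ℕ} (h : Data G F s d)

/-- the fraction field: Laurent series -/
abbrev K := LaurentSeries ℚ

theorem smul_K (r : R h) (k : K) : r • k = ((r : ℚ⟦X⟧) : K) * k := rfl

/-- the ring inside the Laurent series -/
def RK : Submodule (R h) K := LinearMap.range (LinearMap.toSpanSingleton (R h) K 1)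

theorem mem_RK {k : K} : k ∈ RK h ↔ ∃ r : R h, ((r : ℚ⟦X⟧) : K) = k := by
  constructor
  · rintro ⟨r, rfl⟩
    exact ⟨r, (mul_one _).symm⟩
  · rintro ⟨r, rfl⟩
    exact ⟨r, mul_one _⟩

theorem coeff_F_of_mem {k : K} (hk : k ∈ RK h) : HahnSeries.coeff k (F : ℤ) = 0 := by
  obtain ⟨r, rfl⟩ := (mem_RK h).1 hk
  rw [LaurentSeries.coeff_coe_powerSeries]
  exact r.2 F h.notF

theorem coeff_tp_mul (n : ℕ) (hn : G n) (k : K) (m : ℤ) :
    HahnSeries.coeff ((tp h n hn) • k) m = HahnSeries.coeff k (m - n) := by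
  have h1 : m = (m - n) + n := by ring
  rw [smul_K, coe_tp, HahnSeries.ofPowerSeries_X_pow]
  nth_rewrite 1 [h1]
  rw [HahnSeries.coeff_single_mul_add, one_mul]

theorem mem_RK_of_coeff {k : K}
    (h1 : ∀ m : ℤ, (m < 0 ∨ ¬ G m.toNat) → HahnSeries.coeff k m = 0) : k ∈ RK h := by
  rw [mem_RK]
  refine ⟨⟨mk fun n => HahnSeries.coeff k (n : ℤ), fun n hn => ?_⟩, ?_⟩
  · rw [coeff_mk]
    exact h1 n (Or.inr (by rwa [Int.toNat_natCast]))
  · ext m
    by_cases h0 : m < 0
    · rw [h1 m (Or.inl h0)]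
      rw [PowerSeries.coeff_coe, if_pos h0]
    · rw [PowerSeries.coeff_coe, if_neg h0, coeff_mk]
      congr 1
      omega

/-- Duality: a Laurent series lies in the ring iff it is orthogonal to the ring. -/
theorem mem_RK_of_dual {k : K} (hk : ∀ r : R h, HahnSeries.coeff (r • k) (F : ℤ) = 0) :
    k ∈ RK h := by
  apply mem_RK_of_coeff
  · intro m hm
    by_cases hF : (F : ℤ) < m
    · rcases hm with hm | hm
      · omega
      · exact absurd (h.big _ (by omega)) hm
    · have h2 : G ((F : ℤ) - m).toNat := by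
        by_cases h0 : m < 0
        · exact h.big _ (by omega)
        · have h3 := h.symm m.toNat (by omega) (by
            rcases hm with hm | hm
            · omega
            · exact hm)
          have h4 : F - m.toNat = ((F : ℤ) - m).toNat := by omega
          rwa [h4] at h3
      have h3 := hk (tp h _ h2)
      rw [coeff_tp_mul] at h3
      have h4 : (F : ℤ) - (((F : ℤ) - m).toNat : ℤ) = m := by omega
      rwa [h4] at h3

/-- The field of Laurent series is an injective module. -/
theorem injective_K : Module.Injective (R h) K := by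
  apply Module.Baer.injective
  intro I f
  by_cases hI : I = ⊥
  · subst hI
    refine ⟨0, fun x hx => ?_⟩
    have : (⟨x, hx⟩ : (⊥ : Ideal (R h))) = 0 := Subtype.ext hx
    rw [this, map_zero]
    rfl
  · obtain ⟨y, hy, hy0⟩ := Submodule.exists_mem_ne_zero_of_ne_bot hI
    have hyK : ((y : ℚ⟦X⟧) : K) ≠ 0 := by
      intro h0
      apply hy0
      apply Subtype.ext
      exact (HahnSeries.ofPowerSeries_injective (Γ := ℤ) (R := ℚ))
        (h0.trans (map_zero _).symm)
    refine ⟨LinearMap.toSpanSingleton (R h) K (((y : ℚ⟦X⟧) : K)⁻¹ * f ⟨y, hy⟩), fun x hx => ?_⟩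
    have h1 : y • f ⟨x, hx⟩ = x • f ⟨y, hy⟩ := by
      rw [← map_smul, ← map_smul]
      congr 1
      apply Subtype.ext
      exact mul_comm _ _
    rw [smul_K, smul_K] at h1
    rw [LinearMap.toSpanSingleton_apply, smul_K]
    field_simp
    exact h1.symm

/-- Every Laurent series is moved into the ring by a power of the variable. -/
theorem exists_smul_mem (k : K) : ∃ z : R h, z ≠ 0 ∧ z • k ∈ RK h := by
  have hn : G (F + 1 + (F + 1 - HahnSeries.order k).toNat) := h.big _ (by omega)
  refine ⟨tp h _ hn, tp_ne_zero h _ _, mem_RK_of_coeff h fun m hm => ?_⟩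
  have hmF : m ≤ F := by
    rcases hm with hm | hm
    · omega
    · by_contra hlt
      exact hm (h.big _ (by omega))
  rw [coeff_tp_mul]
  apply HahnSeries.coeff_eq_zero_of_lt_order
  push_cast
  omega

/-- `K / R` is an injective module: this is the Gorenstein property. -/
theorem injective_quot : Module.Injective (R h) (K ⧸ RK h) := by
  classical
  apply Module.Baer.injective
  intro I f
  by_cases hI : I = ⊥
  · subst hI
    refine ⟨0, fun x hx => ?_⟩
    have : (⟨x, hx⟩ : (⊥ : Ideal (R h))) = 0 := Subtype.ext hx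
    rw [this, map_zero]
    rfl
  obtain ⟨y, hy, hy0⟩ := Submodule.exists_mem_ne_zero_of_ne_bot hI
  choose κ hκ using fun i : I => (RK h).mkQ_surjective (f i)
  obtain ⟨z, hz0, hz⟩ := exists_smul_mem h (κ ⟨y, hy⟩)
  obtain ⟨N, hN⟩ := exists_dvd h (mul_ne_zero hz0 hy0)
  -- comparison of representatives
  have hadd : ∀ i j : I, HahnSeries.coeff (κ (i + j)) (F : ℤ) =
      HahnSeries.coeff (κ i) (F : ℤ) + HahnSeries.coeff (κ j) (F : ℤ) := by
    intro i j
    have h1 : κ (i + j) - (κ i + κ j) ∈ RK h := by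
      rw [← Submodule.ker_mkQ (RK h), LinearMap.mem_ker, map_sub, map_add, hκ, hκ, hκ, map_add,
        sub_self]
    have h2 := coeff_F_of_mem h h1
    rw [HahnSeries.coeff_sub, HahnSeries.coeff_add, sub_eq_zero] at h2
    exact h2
  have hsmul : ∀ (r : R h) (i : I), HahnSeries.coeff (κ (r • i)) (F : ℤ) =
      HahnSeries.coeff (r • κ i) (F : ℤ) := by
    intro r i
    have h1 : κ (r • i) - r • κ i ∈ RK h := by
      rw [← Submodule.ker_mkQ (RK h), LinearMap.mem_ker, map_sub, map_smul, hκ, hκ, map_smul,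
        sub_self]
    have h2 := coeff_F_of_mem h h1
    rw [HahnSeries.coeff_sub, sub_eq_zero] at h2
    exact h2
  have hvan : ∀ i : I, (X ^ N : ℚ⟦X⟧) ∣ ((i : R h) : ℚ⟦X⟧) →
      HahnSeries.coeff (κ i) (F : ℤ) = 0 := by
    intro i hi
    obtain ⟨r, hr⟩ := hN i hi
    have h1 : i = (r * z) • (⟨y, hy⟩ : I) := by
      apply Subtype.ext
      rw [Submodule.coe_smul, smul_eq_mul, hr]
      ring
    rw [h1, hsmul, mul_smul]
    exact coeff_F_of_mem h ((RK h).smul_mem r hz)
  -- the ideal as a rational vector space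
  let J : Submodule ℚ ℚ⟦X⟧ :=
    { carrier := {x | ∃ hx : x ∈ R h, (⟨x, hx⟩ : R h) ∈ I}
      add_mem' := by
        rintro a b ⟨ha, ha'⟩ ⟨hb, hb'⟩
        exact ⟨(R h).add_mem ha hb, I.add_mem ha' hb'⟩
      zero_mem' := ⟨(R h).zero_mem, I.zero_mem⟩
      smul_mem' := by
        rintro c x ⟨hx, hx'⟩
        have h1 : c • x = ((cc h c * ⟨x, hx⟩ : R h) : ℚ⟦X⟧) := by
          rw [Subring.coe_mul, coe_cc, smul_eq_C_mul]
        have h2 : c • x ∈ R h := h1 ▸ (cc h c * ⟨x, hx⟩ : R h).2
        refine ⟨h2, ?_⟩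
        have h3 : (⟨c • x, h2⟩ : R h) = cc h c * ⟨x, hx⟩ := Subtype.ext h1
        rw [h3]
        exact I.mul_mem_left _ hx' }
  let ι : J → I := fun x => ⟨⟨x.1, x.2.choose⟩, x.2.choose_spec⟩
  let ν : J →ₗ[ℚ] ℚ :=
    { toFun := fun x => HahnSeries.coeff (κ (ι x)) (F : ℤ)
      map_add' := by
        intro a b
        rw [← hadd]
        rfl
      map_smul' := by
        intro c x
        have h1 : ι (c • x) = cc h c • ι x := by
          apply Subtype.ext
          apply Subtype.ext
          change c • (x : ℚ⟦X⟧) = C c * (x : ℚ⟦X⟧)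
          rw [smul_eq_C_mul]
        rw [h1, hsmul, smul_K, coe_cc, PowerSeries.coe_C, HahnSeries.C_mul_eq_smul,
          HahnSeries.coeff_smul]
        rfl }
  let T : ℚ⟦X⟧ →ₗ[ℚ] (Fin N → ℚ) := LinearMap.pi fun j => PowerSeries.coeff (j : ℕ)
  have hker : LinearMap.ker (T.comp J.subtype) ≤ LinearMap.ker ν := by
    intro x hx
    rw [LinearMap.mem_ker] at hx ⊢
    apply hvan
    rw [X_pow_dvd_iff]
    intro m hm
    exact congrFun hx ⟨m, hm⟩
  obtain ⟨c, hc⟩ : ν ∈ LinearMap.range (T.comp J.subtype).dualMap := by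
    rw [LinearMap.range_dualMap_eq_dualAnnihilator_ker, Submodule.mem_dualAnnihilator]
    exact fun x hx => hker hx
  let b : K := ∑ j : Fin N, HahnSeries.single ((F : ℤ) - (j : ℕ)) (c (Pi.single j 1))
  have hb : ∀ r : R h, HahnSeries.coeff (r • b) (F : ℤ) = c (T (r : ℚ⟦X⟧)) := by
    intro r
    have h1 : T (r : ℚ⟦X⟧) = ∑ j : Fin N, (PowerSeries.coeff (j : ℕ) (r : ℚ⟦X⟧)) •
        (Pi.single j 1 : Fin N → ℚ) := by
      ext i
      rw [Finset.sum_apply, Finset.sum_eq_single i]
      · simp [T]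
      · intro j _ hj
        simp [Pi.single_eq_of_ne (Ne.symm hj)]
      · intro hi
        exact absurd (Finset.mem_univ _) hi
    rw [h1, map_sum, smul_K, Finset.mul_sum, HahnSeries.coeff_sum]
    refine Finset.sum_congr rfl fun j _ => ?_
    rw [HahnSeries.coeff_mul_single, map_smul, smul_eq_mul]
    congr 1
    have h2 : (F : ℤ) - ((F : ℤ) - (j : ℕ)) = ((j : ℕ) : ℤ) := by ring
    rw [h2, LaurentSeries.coeff_coe_powerSeries]
  refine ⟨LinearMap.toSpanSingleton (R h) _ ((RK h).mkQ b), fun x hx => ?_⟩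
  rw [LinearMap.toSpanSingleton_apply, ← hκ, ← map_smul, ← sub_eq_zero, ← map_sub,
    ← LinearMap.mem_ker, Submodule.ker_mkQ]
  apply mem_RK_of_dual
  intro r
  rw [smul_sub, HahnSeries.coeff_sub, smul_smul, hb, ← hsmul, sub_eq_zero]
  have h1 := congrArg (fun φ : Module.Dual ℚ J => φ ⟨((r * x : R h) : ℚ⟦X⟧),
    ⟨(r * x).2, I.mul_mem_left r hx⟩⟩) hc
  exact h1

/-- **The ring is Gorenstein**: its injective dimension is at most one. -/
theorem injDim_le_one : HasInjectiveDimensionLE (ModuleCat.of (R h) (R h)) 1 := by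
  have i1 : Module.Injective (R h) K := injective_K h
  have i2 : Module.Injective (R h) (K ⧸ RK h) := injective_quot h
  have h1 : Injective (ModuleCat.of (R h) K) := Module.injective_object_of_injective_module _ _
  have h2 : Injective (ModuleCat.of (R h) (K ⧸ RK h)) :=
    Module.injective_object_of_injective_module _ _
  let fm : R h →ₗ[R h] K := LinearMap.toSpanSingleton (R h) K 1
  have hfm : Function.Injective fm := by
    intro a b hab
    apply Subtype.ext
    apply HahnSeries.ofPowerSeries_injective (Γ := ℤ) (R := ℚ)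
    have h3 : ((a : ℚ⟦X⟧) : K) * 1 = ((b : ℚ⟦X⟧) : K) * 1 := hab
    rwa [mul_one, mul_one] at h3
  let T : ShortComplex (ModuleCat (R h)) := ShortComplex.mk (ModuleCat.ofHom fm)
    (ModuleCat.ofHom (RK h).mkQ) (by
      apply ModuleCat.hom_ext
      apply LinearMap.ext
      intro a
      change (RK h).mkQ (fm a) = 0
      rw [← LinearMap.mem_ker, Submodule.ker_mkQ]
      exact ⟨a, rfl⟩)
  have hT : T.ShortExact :=
    { exact := by
        rw [ShortComplex.moduleCat_exact_iff]
        intro x hx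
        have h3 : x ∈ LinearMap.ker (RK h).mkQ := hx
        rw [Submodule.ker_mkQ] at h3
        obtain ⟨a, ha⟩ := h3
        exact ⟨a, ha⟩
      mono_f := (ModuleCat.mono_iff_injective _).2 hfm
      epi_g := (ModuleCat.epi_iff_surjective _).2 (RK h).mkQ_surjective }
  exact hT.hasInjectiveDimensionLT_X₁ 1 inferInstance inferInstance

end

end Pool.Agent.HunekeWiegand
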