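import Pool.Agent.Lib.MP_fdcc6d_al.Ring

/-!
# A counterexample to the Huneke–Wiegand conjecture: the module
-/

open PowerSeries

namespace Pool.Agent.HunekeWiegand

noncomputable section

variable {G : ℕ → Prop} {F s d : ℕ} (h : Data G F s d)

/-- The module `M = R + X ^ s R`: power series with support in `E G s`. -/
def M : Submodule (R h) ℚ⟦X⟧ where
  carrier := {f | ∀ n, ¬ E G s n → coeff n f = 0}
  add_mem' := by
    intro f g hf hg n hn
    rw [map_add, hf n hn, hg n hn, add_zero]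
  zero_mem' := by
    intro n _
    rw [map_zero]
  smul_mem' := by
    intro r f hf n hn
    rw [Subring.smul_def, smul_eq_mul, coeff_mul]
    refine Finset.sum_eq_zero fun p hp => ?_
    rw [Finset.HasAntidiagonal.mem_antidiagonal] at hp
    by_cases h1 : G p.1
    · by_cases h2 : E G s p.2
      · exfalso
        apply hn
        rcases h2 with h2 | ⟨h2, h3⟩
        · exact Or.inl (hp ▸ h.add _ _ h1 h2)
        · refine Or.inr ⟨by omega, ?_⟩
          have : n - s = p.1 + (p.2 - s) := by omega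
          rw [this]
          exact h.add _ _ h1 h3
      · rw [hf _ h2, mul_zero]
    · rw [r.2 _ h1, zero_mul]

/-- the generator `1` -/
def e0 : M h := ⟨1, by
  intro n hn
  rw [coeff_one, if_neg]
  rintro rfl
  exact hn (Or.inl h.zero)⟩

/-- the generator `X ^ s` -/
def e1 : M h := ⟨X ^ s, by
  intro n hn
  rw [coeff_X_pow, if_neg]
  rintro rfl
  exact hn (Or.inr ⟨le_rfl, by rw [Nat.sub_self]; exact h.zero⟩)⟩

@[simp] theorem coe_e0 : ((e0 h : M h) : ℚ⟦X⟧) = 1 := rfl
@[simp] theorem coe_e1 : ((e1 h : M h) : ℚ⟦X⟧) = X ^ s := rfl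

theorem smul_coe (r : R h) (m : M h) : ((r • m : M h) : ℚ⟦X⟧) = (r : ℚ⟦X⟧) * (m : ℚ⟦X⟧) := rfl

/-- the surjection `R × R → M` -/
def pr : (R h × R h) →ₗ[R h] M h :=
  (LinearMap.toSpanSingleton (R h) (M h) (e0 h)).coprod
    (LinearMap.toSpanSingleton (R h) (M h) (e1 h))

theorem pr_apply (x : R h × R h) : pr h x = x.1 • e0 h + x.2 • e1 h := by
  simp [pr]

theorem pr_coe (x : R h × R h) :
    ((pr h x : M h) : ℚ⟦X⟧) = (x.1 : ℚ⟦X⟧) + (x.2 : ℚ⟦X⟧) * X ^ s := by
  rw [pr_apply, Submodule.coe_add, smul_coe, smul_coe, coe_e0, coe_e1, mul_one]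

theorem pr_surjective : Function.Surjective (pr h) := by
  classical
  intro m
  refine ⟨(⟨mk fun n => if G n then coeff n (m : ℚ⟦X⟧) else 0, by
    intro n hn
    rw [coeff_mk, if_neg hn]⟩,
    ⟨mk fun n => if G n ∧ ¬ G (n + s) then coeff (n + s) (m : ℚ⟦X⟧) else 0, by
    intro n hn
    rw [coeff_mk, if_neg fun h1 => hn h1.1]⟩), ?_⟩
  apply Subtype.ext
  rw [pr_coe]
  ext n
  rw [map_add, coeff_mul_X_pow', coeff_mk]
  by_cases h1 : G n
  · rw [if_pos h1]
    by_cases h2 : s ≤ n
    · rw [if_pos h2, coeff_mk, if_neg, add_zero]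
      intro h3
      rw [Nat.sub_add_cancel h2] at h3
      exact h3.2 h1
    · rw [if_neg h2, add_zero]
  · rw [if_neg h1, zero_add]
    by_cases h2 : s ≤ n
    · rw [if_pos h2, coeff_mk, Nat.sub_add_cancel h2]
      by_cases h3 : G (n - s)
      · rw [if_pos ⟨h3, h1⟩]
      · rw [if_neg fun h4 => h3 h4.1]
        exact (m.2 n fun h4 => h4.elim h1 fun h5 => h3 h5.2).symm
    · rw [if_neg h2]
      exact (m.2 n fun h4 => h4.elim h1 fun h5 => h2 h5.1).symm

instance instFinite : Module.Finite (R h) (M h) :=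
  Module.Finite.of_surjective (pr h) (pr_surjective h)

theorem torsionfree (r : R h) (m : M h) (hrm : r • m = 0) : r = 0 ∨ m = 0 := by
  have h1 := congrArg (fun x : M h => (x : ℚ⟦X⟧)) hrm
  simp only [smul_coe, Submodule.coe_zero] at h1
  rcases mul_eq_zero.1 h1 with h2 | h2
  · exact Or.inl (Subtype.ext h2)
  · exact Or.inr (Subtype.ext h2)

theorem e0_ne_zero : e0 h ≠ 0 := by
  intro h0
  have := congrArg (fun x : M h => (x : ℚ⟦X⟧)) h0
  simp at this

theorem not_free : ¬ Module.Free (R h) (M h) := by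
  intro hfree
  set b := Module.Free.chooseBasis (R h) (M h) with hb
  have hsub : Subsingleton (Module.Free.ChooseBasisIndex (R h) (M h)) := by
    refine ⟨fun i j => ?_⟩
    by_contra hij
    -- a nontrivial relation between `b i` and `b j`
    set r1 : R h := ⟨X ^ (F + 1) * (b j : ℚ⟦X⟧), mem_of_dvd h (dvd_mul_right _ _)⟩ with hr1
    set r2 : R h := ⟨X ^ (F + 1) * (b i : ℚ⟦X⟧), mem_of_dvd h (dvd_mul_right _ _)⟩ with hr2
    have hrel : r1 • b i - r2 • b j = 0 := by
      apply Subtype.ext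
      rw [Submodule.coe_sub, smul_coe, smul_coe, Submodule.coe_zero, hr1, hr2]
      change X ^ (F + 1) * (b j : ℚ⟦X⟧) * (b i : ℚ⟦X⟧) -
        X ^ (F + 1) * (b i : ℚ⟦X⟧) * (b j : ℚ⟦X⟧) = 0
      ring
    have h1 := congrArg (fun x => b.repr x i) hrel
    simp only [map_sub, map_smul, Module.Basis.repr_self, map_zero, Finsupp.coe_sub,
      Finsupp.coe_smul, Pi.sub_apply, Pi.smul_apply, Finsupp.single_eq_same,
      Finsupp.coe_zero, Pi.zero_apply, smul_eq_mul, mul_one] at h1
    rw [Finsupp.single_eq_of_ne hij, mul_zero, sub_zero] at h1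
    have h2 := congrArg (fun x : R h => (x : ℚ⟦X⟧)) h1
    simp only [hr1, Subring.coe_zero] at h2
    rcases mul_eq_zero.1 h2 with h3 | h3
    · exact pow_ne_zero _ X_ne_zero h3
    · exact b.ne_zero j (Subtype.ext h3)
  -- there is a basis element
  have hne : Nonempty (Module.Free.ChooseBasisIndex (R h) (M h)) := by
    by_contra hemp
    rw [not_nonempty_iff] at hemp
    have h1 : b.repr (e0 h) = 0 := Subsingleton.elim _ _
    rw [LinearEquiv.map_eq_zero_iff] at h1
    exact e0_ne_zero h h1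
  obtain ⟨i⟩ := hne
  have hgen : ∀ m : M h, ∃ r : R h, m = r • b i := by
    intro m
    refine ⟨b.repr m i, ?_⟩
    have h1 := b.linearCombination_repr m
    have h2 : b.repr m = Finsupp.single i (b.repr m i) := by
      ext j
      have : j = i := Subsingleton.elim _ _
      subst this
      simp
    rw [h2, Finsupp.linearCombination_single] at h1
    exact h1.symm
  obtain ⟨r, hr⟩ := hgen (e0 h)
  obtain ⟨r', hr'⟩ := hgen (e1 h)
  have h1 := congrArg (fun x : M h => (x : ℚ⟦X⟧)) hr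
  have h2 := congrArg (fun x : M h => (x : ℚ⟦X⟧)) hr'
  simp only [smul_coe, coe_e0, coe_e1] at h1 h2
  have h3 : constantCoeff (r : ℚ⟦X⟧) ≠ 0 := by
    intro h0
    have := congrArg (constantCoeff (R := ℚ)) h1
    rw [map_mul, h0, zero_mul, map_one] at this
    exact one_ne_zero this
  obtain ⟨w, hw⟩ := isUnit_iff_exists_inv.1 (isUnit_of_ne h h3)
  have h4 : (w : ℚ⟦X⟧) = (b i : ℚ⟦X⟧) := by
    have hw' : (r : ℚ⟦X⟧) * (w : ℚ⟦X⟧) = 1 := congrArg (fun x : R h => (x : ℚ⟦X⟧)) hw
    have hr0 : (r : ℚ⟦X⟧) ≠ 0 := by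
      intro h0
      rw [h0, map_zero] at h3
      exact h3 rfl
    exact mul_left_cancel₀ hr0 (hw'.trans h1)
  have h5 : (X ^ s : ℚ⟦X⟧) ∈ R h := by
    rw [h2, ← h4]
    exact (R h).mul_mem r'.2 w.2
  have h6 := h5 s h.nots
  rw [coeff_X_pow, if_pos rfl] at h6
  exact one_ne_zero h6

/-- Power series with exponents in `E2` are of the form `v - X ^ s u` with `u, v ∈ M`. -/
theorem exists_uv (q : ℚ⟦X⟧) (hq : ∀ n, ¬ E2 G s n → coeff n q = 0) :
    ∃ u v : M h, q = (v : ℚ⟦X⟧) - X ^ s * (u : ℚ⟦X⟧) := by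
  classical
  refine ⟨⟨mk fun m => if E G s (m + s) then 0 else - coeff (m + s) q, ?_⟩,
    ⟨mk fun n => if E G s n then coeff n q else 0, ?_⟩, ?_⟩
  · intro n hn
    rw [coeff_mk]
    split_ifs with h1
    · rfl
    · rw [neg_eq_zero]
      refine hq _ fun h2 => ?_
      rcases h2 with h2 | ⟨h2, h3⟩
      · exact h1 h2
      · refine hn (Or.inr ⟨by omega, ?_⟩)
        have : n + s - 2 * s = n - s := by omega
        rwa [this] at h3
  · intro n hn
    rw [coeff_mk, if_neg hn]
  · ext n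
    rw [map_sub, mul_comm, coeff_mul_X_pow', coeff_mk]
    by_cases h1 : E G s n
    · rw [if_pos h1]
      split_ifs with h2
      · rw [coeff_mk, Nat.sub_add_cancel h2, if_pos h1, sub_zero]
      · rw [sub_zero]
    · rw [if_neg h1]
      split_ifs with h2
      · rw [coeff_mk, Nat.sub_add_cancel h2, if_neg h1, zero_sub, neg_neg]
      · rw [sub_zero]
        refine hq n fun h3 => ?_
        rcases h3 with h3 | ⟨h3, -⟩
        · exact h1 h3
        · exact h2 (by omega)

/-- **Every extension of `M` by `M` splits.** -/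
theorem split (E' : Type) [AddCommGroup E'] [Module (R h) E'] (f : M h →ₗ[R h] E')
    (g : E' →ₗ[R h] M h) (hf : Function.Injective f) (hg : Function.Surjective g)
    (hfg : LinearMap.range f = LinearMap.ker g) :
    ∃ σ : M h →ₗ[R h] E', g.comp σ = LinearMap.id := by
  classical
  obtain ⟨u0, hu0⟩ := hg (e0 h)
  obtain ⟨u1, hu1⟩ := hg (e1 h)
  -- the homomorphism `J → M`
  have hφ : ∀ b b' : R h, (b' : ℚ⟦X⟧) = (b : ℚ⟦X⟧) * X ^ s →
      ∃ m : M h, f m = b • u1 - b' • u0 := by
    intro b b' hbb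
    have h1 : b • u1 - b' • u0 ∈ LinearMap.ker g := by
      rw [LinearMap.mem_ker, map_sub, map_smul, map_smul, hu0, hu1]
      apply Subtype.ext
      rw [Submodule.coe_sub, smul_coe, smul_coe, coe_e0, coe_e1, mul_one, hbb, sub_self]
      rfl
    rw [← hfg] at h1
    exact h1
  obtain ⟨p, hp⟩ := hφ (tp h d h.d0) (tp h (d + s) h.d1) (by rw [coe_tp, coe_tp, pow_add])
  -- `φ` is multiplication by `p / X ^ d`
  have hmul : ∀ b b' : R h, (b' : ℚ⟦X⟧) = (b : ℚ⟦X⟧) * X ^ s → ∀ m : M h,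
      f m = b • u1 - b' • u0 → X ^ d * (m : ℚ⟦X⟧) = (b : ℚ⟦X⟧) * (p : ℚ⟦X⟧) := by
    intro b b' hbb m hm
    have h1 : tp h d h.d0 • m = b • p := by
      apply hf
      rw [map_smul, map_smul, hm, hp, smul_sub, smul_sub, smul_smul, smul_smul, smul_smul,
        smul_smul]
      have h2 : tp h d h.d0 * b' = b * tp h (d + s) h.d1 := by
        apply Subtype.ext
        rw [Subring.coe_mul, Subring.coe_mul, coe_tp, coe_tp, hbb, pow_add]
        ring
      rw [h2, mul_comm (tp h d h.d0) b]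
    exact congrArg (fun x : M h => (x : ℚ⟦X⟧)) h1
  -- the coefficients of `p`
  have hpc : ∀ n, coeff n (p : ℚ⟦X⟧) ≠ 0 → d ≤ n ∧ E2 G s (n - d) := by
    intro n hn
    apply h.key
    intro y hy hys
    obtain ⟨m, hm⟩ := hφ (tp h y hy) (tp h (y + s) hys) (by rw [coe_tp, coe_tp, pow_add])
    have h1 := hmul (tp h y hy) (tp h (y + s) hys) (by rw [coe_tp, coe_tp, pow_add]) m hm
    have h2 := congrArg (coeff (n + y)) h1
    rw [coe_tp, mul_comm (X ^ d), mul_comm (X ^ y), coeff_mul_X_pow', coeff_mul_X_pow',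
      if_pos (Nat.le_add_left y n), Nat.add_sub_cancel] at h2
    by_cases h3 : d ≤ n + y
    · refine ⟨h3, ?_⟩
      rw [if_pos h3] at h2
      by_contra h4
      rw [m.2 _ h4] at h2
      exact hn h2.symm
    · rw [if_neg h3] at h2
      exact absurd h2.symm hn
  set q : ℚ⟦X⟧ := mk fun n => coeff (n + d) (p : ℚ⟦X⟧) with hq
  have hpq : (p : ℚ⟦X⟧) = X ^ d * q := by
    ext n
    rw [mul_comm, coeff_mul_X_pow']
    split_ifs with h1
    · rw [hq, coeff_mk, Nat.sub_add_cancel h1]
    · by_contra h2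
      exact h1 (hpc n h2).1
  obtain ⟨u, v, huv⟩ := exists_uv h q (by
    intro n hn
    rw [hq, coeff_mk]
    by_contra h1
    have h2 := (hpc _ h1).2
    rw [Nat.add_sub_cancel] at h2
    exact hn h2)
  -- corrected lifts
  set w0 := u0 - f u with hw0
  set w1 := u1 - f v with hw1
  have hrel : ∀ b b' : R h, (b' : ℚ⟦X⟧) = (b : ℚ⟦X⟧) * X ^ s → b • w1 - b' • w0 = 0 := by
    intro b b' hbb
    obtain ⟨m, hm⟩ := hφ b b' hbb
    have h1 := hmul b b' hbb m hm
    have h2 : m = b • v - b' • u := by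
      apply Subtype.ext
      rw [Submodule.coe_sub, smul_coe, smul_coe, hbb]
      apply mul_left_cancel₀ (pow_ne_zero d (X_ne_zero (R := ℚ)))
      rw [h1, hpq, huv]
      ring
    have h3 : b • w1 - b' • w0 = f m - f (b • v - b' • u) := by
      rw [hm, hw0, hw1, map_sub, map_smul, map_smul, smul_sub, smul_sub]
      abel
    rw [h3, h2, sub_self]
  -- the section
  set ψ : (R h × R h) →ₗ[R h] E' :=
    (LinearMap.toSpanSingleton (R h) E' w0).coprod (LinearMap.toSpanSingleton (R h) E' w1)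
    with hψ
  have hψa : ∀ x, ψ x = x.1 • w0 + x.2 • w1 := by
    intro x
    simp [hψ]
  have hker : LinearMap.ker (pr h) ≤ LinearMap.ker ψ := by
    intro x hx
    rw [LinearMap.mem_ker] at hx ⊢
    have h1 := congrArg (fun z : M h => (z : ℚ⟦X⟧)) hx
    simp only [pr_coe, Submodule.coe_zero] at h1
    have h2 := hrel x.2 (-x.1) (by
      rw [Subring.coe_neg]
      exact neg_eq_of_add_eq_zero_right h1)
    rw [hψa]
    rw [neg_smul, sub_neg_eq_add, add_comm] at h2
    exact h2
  refine ⟨((LinearMap.ker (pr h)).liftQ ψ hker).comp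
    ((pr h).quotKerEquivOfSurjective (pr_surjective h)).symm.toLinearMap, ?_⟩
  ext m
  obtain ⟨x, rfl⟩ := pr_surjective h m
  have h1 : ((pr h).quotKerEquivOfSurjective (pr_surjective h)).symm (pr h x) =
      (LinearMap.ker (pr h)).mkQ x := by
    rw [LinearEquiv.symm_apply_eq]
    rfl
  have h2 : g (ψ x) = pr h x := by
    have hfk : ∀ m : M h, g (f m) = 0 := by
      intro m
      have : f m ∈ LinearMap.range f := ⟨m, rfl⟩
      rw [hfg] at this
      exact this
    rw [hψa, map_add, map_smul, map_smul, hw0, hw1, map_sub, map_sub, hfk, hfk, sub_zero,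
      sub_zero, hu0, hu1, pr_apply]
  rw [LinearMap.comp_apply, LinearMap.comp_apply, LinearEquiv.coe_coe, h1, Submodule.mkQ_apply,
    Submodule.liftQ_apply, h2]
  rfl

end

end Pool.Agent.HunekeWiegand
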