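import Pool.Agent.Lib.MP_fdcc6d_al.Module

/-!
# A counterexample to the Huneke–Wiegand conjecture: the numerical semigroup

The symmetric numerical semigroup with Frobenius number `271` generated by
`80, 87, 89, 90, 96, 98, 99, 100, 103, 105, …, 110, 112, …, 115, 117, 118, 119, 121, …, 126, 128,
131, 132, 133, 136, 137, 141, 142, 144, 151, 155`, and the exponent `s = 20`.
-/

namespace Pool.Agent.HunekeWiegand

/-- The elements of the semigroup up to `271`, as a bit mask. -/
def mask : ℕ := 0x7fffffffffffffffffff7e9f4681088163397eef7e9d068100000000000000000001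

/-- The semigroup. -/
def Gam (n : ℕ) : Prop := 271 < n ∨ mask.testBit n = true

instance : DecidablePred Gam := fun n => inferInstanceAs (Decidable (271 < n ∨ mask.testBit n = true))

/-- the complement of the semigroup in `[0, 271]` -/
def gaps : ℕ := (2 ^ 272 - 1) - mask

theorem gaps_testBit : ∀ n, n < 272 → mask.testBit n = false → gaps.testBit n = true := by
  decide +kernel

theorem closed_aux : ∀ a, a < 272 → mask.testBit a = true → (mask <<< a) &&& gaps = 0 := by
  decide +kernel

theorem Gam_add (a b : ℕ) (ha : Gam a) (hb : Gam b) : Gam (a + b) := by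
  by_contra hab
  have h1 : ¬ 271 < a + b := fun h => hab (Or.inl h)
  have h2 : mask.testBit (a + b) = false := by
    rw [← Bool.not_eq_true]
    exact fun h => hab (Or.inr h)
  have ha' : mask.testBit a = true := ha.resolve_left (by omega)
  have hb' : mask.testBit b = true := hb.resolve_left (by omega)
  have h3 := closed_aux a (by omega) ha'
  have h4 : ((mask <<< a) &&& gaps).testBit (a + b) = true := by
    rw [Nat.testBit_and, Nat.testBit_shiftLeft, gaps_testBit _ (by omega) h2]
    simp [hb']
  rw [h3] at h4
  simp at h4

theorem Gam_symm : ∀ n, n < 272 → ¬ Gam n → Gam (271 - n) := by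
  decide +kernel

/-- decidable version of `E` -/
def Eb (m : ℕ) : Bool := decide (Gam m) || (decide (20 ≤ m) && decide (Gam (m - 20)))

/-- decidable version of `E2` -/
def E2b (m : ℕ) : Bool := Eb m || (decide (40 ≤ m) && decide (Gam (m - 40)))

theorem Eb_iff (m : ℕ) : Eb m = true ↔ E Gam 20 m := by
  simp [Eb, E]

theorem E2b_iff (m : ℕ) : E2b m = true ↔ E2 Gam 20 m := by
  simp [E2b, E2, Eb_iff]

theorem key_aux : ∀ n, n < 352 → (decide (80 ≤ n) && E2b (n - 80)) = false →
    ∃ y, y < 132 ∧ (decide (Gam y) && decide (Gam (y + 20)) &&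
      !(decide (80 ≤ n + y) && Eb (n + y - 80))) = true := by
  decide +kernel

theorem data : Data Gam 271 20 80 where
  zero := by decide +kernel
  add := Gam_add
  big n hn := Or.inl hn
  notF := by decide +kernel
  symm n hn := Gam_symm n (by omega)
  nots := by decide +kernel
  d0 := by decide +kernel
  d1 := by decide +kernel
  dpos := by norm_num
  key := by
    intro n hn
    by_cases hlt : n < 352
    · by_contra hc
      have h1 : (decide (80 ≤ n) && E2b (n - 80)) = false := by
        rw [← Bool.not_eq_true, Bool.and_eq_true, decide_eq_true_eq, E2b_iff]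
        exact hc
      obtain ⟨y, -, hy⟩ := key_aux n hlt h1
      simp only [Bool.and_eq_true, decide_eq_true_eq, Bool.not_eq_true', Bool.and_eq_false_iff,
        decide_eq_false_iff_not] at hy
      obtain ⟨⟨hy1, hy2⟩, hy3⟩ := hy
      obtain ⟨h2, h3⟩ := hn y hy1 hy2
      rcases hy3 with hy3 | hy3
      · exact hy3 h2
      · rw [← Eb_iff, hy3] at h3
        exact absurd h3 (by decide)
    · refine ⟨by omega, Or.inl (Or.inl (Or.inl ?_))⟩
      omega

end Pool.Agent.HunekeWiegand
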