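import Mathlib

/-!
# A counterexample to the Huneke–Wiegand conjecture: general part

Let `G` be a symmetric numerical semigroup with Frobenius number `F`, `R` the ring of power series
over `ℚ` with support in `G`, `s ∉ G`, and `M = R + X ^ s R`.  If the combinatorial condition
`Data.key` holds, then every extension of `M` by `M` splits.
-/

open PowerSeries

namespace Pool.Agent.HunekeWiegand

noncomputable section

/-- exponents of `M = R + X ^ s R` -/
def E (G : ℕ → Prop) (s m : ℕ) : Prop := G m ∨ (s ≤ m ∧ G (m - s))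

/-- exponents of `R + X ^ s R + X ^ (2 s) R` -/
def E2 (G : ℕ → Prop) (s m : ℕ) : Prop := E G s m ∨ (2 * s ≤ m ∧ G (m - 2 * s))

/-- The combinatorial data. -/
structure Data (G : ℕ → Prop) (F s d : ℕ) : Prop where
  zero : G 0
  add : ∀ a b, G a → G b → G (a + b)
  big : ∀ n, F < n → G n
  notF : ¬ G F
  symm : ∀ n, n ≤ F → ¬ G n → G (F - n)
  nots : ¬ G s
  d0 : G d
  d1 : G (d + s)
  dpos : 0 < d
  key : ∀ n, (∀ y, G y → G (y + s) → d ≤ n + y ∧ E G s (n + y - d)) → d ≤ n ∧ E2 G s (n - d)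

variable {G : ℕ → Prop} {F s d : ℕ}

/-- The ring of power series with support in the semigroup. -/
def R (h : Data G F s d) : Subring ℚ⟦X⟧ where
  carrier := {f | ∀ n, ¬ G n → coeff n f = 0}
  mul_mem' := by
    intro f g hf hg n hn
    rw [coeff_mul]
    refine Finset.sum_eq_zero fun p hp => ?_
    rw [Finset.HasAntidiagonal.mem_antidiagonal] at hp
    by_cases h1 : G p.1
    · by_cases h2 : G p.2
      · exact absurd (hp ▸ h.add _ _ h1 h2) hn
      · rw [hg _ h2, mul_zero]
    · rw [hf _ h1, zero_mul]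
  one_mem' := by
    intro n hn
    rw [coeff_one, if_neg]
    rintro rfl
    exact hn h.zero
  add_mem' := by
    intro f g hf hg n hn
    rw [map_add, hf n hn, hg n hn, add_zero]
  zero_mem' := by
    intro n _
    rw [map_zero]
  neg_mem' := by
    intro f hf n hn
    rw [map_neg, hf n hn, neg_zero]

variable (h : Data G F s d)

theorem mem_R {f : ℚ⟦X⟧} : f ∈ R h ↔ ∀ n, ¬ G n → coeff n f = 0 := Iff.rfl

theorem X_pow_mem {n : ℕ} (hn : G n) : (X ^ n : ℚ⟦X⟧) ∈ R h := by
  intro m hm
  rw [coeff_X_pow, if_neg]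
  rintro rfl
  exact hm hn

theorem C_mem (a : ℚ) : (C a : ℚ⟦X⟧) ∈ R h := by
  intro m hm
  rw [coeff_C, if_neg]
  rintro rfl
  exact hm h.zero

theorem mem_of_dvd {f : ℚ⟦X⟧} (hf : X ^ (F + 1) ∣ f) : f ∈ R h := by
  intro n hn
  rw [X_pow_dvd_iff] at hf
  refine hf n ?_
  by_contra hlt
  exact hn (h.big n (by omega))

/-- `X ^ n` as an element of the ring -/
def tp (n : ℕ) (hn : G n) : R h := ⟨X ^ n, X_pow_mem h hn⟩

@[simp] theorem coe_tp (n : ℕ) (hn : G n) : ((tp h n hn : R h) : ℚ⟦X⟧) = X ^ n := rfl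

/-- constants -/
def cc (a : ℚ) : R h := ⟨C a, C_mem h a⟩

@[simp] theorem coe_cc (a : ℚ) : ((cc h a : R h) : ℚ⟦X⟧) = C a := rfl

theorem inv_mem {f : ℚ⟦X⟧} (hf : f ∈ R h) : f⁻¹ ∈ R h := by
  intro n
  induction n using Nat.strong_induction_on with
  | _ n ih =>
    intro hn
    rw [PowerSeries.coeff_inv, if_neg (by rintro rfl; exact hn h.zero)]
    rw [Finset.sum_eq_zero, mul_zero]
    intro p hp
    rw [Finset.HasAntidiagonal.mem_antidiagonal] at hp
    split_ifs with hlt
    · by_cases h1 : G p.1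
      · by_cases h2 : G p.2
        · exact absurd (hp ▸ h.add _ _ h1 h2) hn
        · rw [ih _ hlt h2, mul_zero]
      · rw [hf _ h1, zero_mul]
    · rfl

/-- the residue map -/
def res : R h →+* ℚ := (constantCoeff (R := ℚ)).comp (R h).subtype

@[simp] theorem res_apply (f : R h) : res h f = constantCoeff (f : ℚ⟦X⟧) := rfl

theorem isUnit_of_ne {f : R h} (hf : constantCoeff (f : ℚ⟦X⟧) ≠ 0) : IsUnit f := by
  rw [isUnit_iff_exists_inv]
  refine ⟨⟨(f : ℚ⟦X⟧)⁻¹, inv_mem h f.2⟩, ?_⟩
  apply Subtype.ext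
  exact PowerSeries.mul_inv_cancel _ hf

instance : IsLocalHom (res h) where
  map_nonunit _ hf := isUnit_of_ne h (isUnit_iff_ne_zero.1 hf)

instance instLocal : IsLocalRing (R h) := RingHom.domain_isLocalRing (res h)

theorem mem_maximal {f : R h} :
    f ∈ IsLocalRing.maximalIdeal (R h) ↔ constantCoeff (f : ℚ⟦X⟧) = 0 := by
  rw [IsLocalRing.mem_maximalIdeal, mem_nonunits_iff]
  constructor
  · intro hf
    by_contra hne
    exact hf (isUnit_of_ne h hne)
  · intro hf hu
    have := hu.map (res h)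
    rw [res_apply, hf] at this
    exact not_isUnit_zero this

/-- Everything of large order is divisible by a given nonzero element. -/
theorem exists_dvd {x : R h} (hx : x ≠ 0) :
    ∃ N : ℕ, ∀ g : R h, (X ^ N : ℚ⟦X⟧) ∣ g → ∃ r : R h, g = x * r := by
  have hx' : (x : ℚ⟦X⟧) ≠ 0 := fun h0 => hx (Subtype.ext h0)
  set n := (x : ℚ⟦X⟧).order.toNat with hn
  set u := (x : ℚ⟦X⟧).divXPowOrder with hu
  have hxu : (x : ℚ⟦X⟧) = X ^ n * u := (X_pow_order_mul_divXPowOrder).symm
  have huc : constantCoeff u ≠ 0 := by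
    rw [hu, ne_eq, constantCoeff_divXPowOrder_eq_zero_iff]
    exact hx'
  refine ⟨n + (F + 1), fun g hg => ?_⟩
  obtain ⟨w, hw⟩ := hg
  refine ⟨⟨X ^ (F + 1) * (w * u⁻¹), mem_of_dvd h (dvd_mul_right _ _)⟩, ?_⟩
  apply Subtype.ext
  change (g : ℚ⟦X⟧) = (x : ℚ⟦X⟧) * (X ^ (F + 1) * (w * u⁻¹))
  rw [hw, hxu, pow_add]
  have := PowerSeries.mul_inv_cancel u huc
  calc X ^ n * X ^ (F + 1) * w = X ^ n * X ^ (F + 1) * w * (u * u⁻¹) := by rw [this, mul_one]
    _ = _ := by ring

theorem maximal_le_radical {x : R h} (hx : x ≠ 0) :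
    IsLocalRing.maximalIdeal (R h) ≤ Ideal.radical (Ideal.span {x}) := by
  obtain ⟨N, hN⟩ := exists_dvd h hx
  intro y hy
  rw [mem_maximal] at hy
  refine ⟨N, ?_⟩
  rw [Ideal.mem_span_singleton]
  obtain ⟨r, hr⟩ := hN (y ^ N) (by
    rw [SubmonoidClass.coe_pow]
    exact pow_dvd_pow_of_dvd (X_dvd_iff.2 hy) N)
  exact ⟨r, hr⟩

theorem tp_ne_zero (n : ℕ) (hn : G n) : tp h n hn ≠ 0 := by
  intro h0
  have := congrArg (fun f : R h => coeff n (f : ℚ⟦X⟧)) h0
  simp at this

theorem tp_mem {n : ℕ} (hn : G n) (h0 : 0 < n) : tp h n hn ∈ IsLocalRing.maximalIdeal (R h) := by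
  rw [mem_maximal, coe_tp, map_pow, constantCoeff_X, zero_pow h0.ne']

theorem dim_one : ringKrullDim (R h) = 1 := by
  rw [ringKrullDim_eq_one_iff_of_isLocalRing_isDomain]
  refine ⟨fun hf => ?_, fun x hx => maximal_le_radical h hx⟩
  have h1 := tp_mem h h.d0 h.dpos
  rw [IsLocalRing.mem_maximalIdeal, mem_nonunits_iff] at h1
  obtain ⟨b, hb⟩ := hf.mul_inv_cancel (tp_ne_zero h d h.d0)
  exact h1 (isUnit_iff_exists_inv.2 ⟨b, hb⟩)

theorem maximal_fg : (IsLocalRing.maximalIdeal (R h)).FG := by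
  classical
  set v : ℕ → R h := fun i => if hi : G i ∧ 0 < i then tp h i hi.1 else 0 with hv
  have hvm : ∀ i, v i ∈ IsLocalRing.maximalIdeal (R h) := by
    intro i
    simp only [hv]
    split_ifs with hi
    · exact tp_mem h hi.1 hi.2
    · exact zero_mem _
  have hvc : ∀ i, (v i : ℚ⟦X⟧) = if G i ∧ 0 < i then X ^ i else 0 := by
    intro i
    simp only [hv]
    split_ifs with hi
    · rfl
    · rfl
  refine ⟨(Finset.range (d + F + 1)).image v, le_antisymm ?_ ?_⟩
  · rw [Ideal.span_le]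
    intro x hx
    rw [Finset.coe_image, Set.mem_image] at hx
    obtain ⟨i, -, rfl⟩ := hx
    exact hvm i
  · intro f hf
    rw [mem_maximal] at hf
    set r : R h := ⟨mk fun n => if n ≤ F then 0 else coeff (n + d) (f : ℚ⟦X⟧), by
      intro n hn
      rw [coeff_mk, if_pos]
      by_contra hlt
      exact hn (h.big n (by omega))⟩ with hr
    have key : f = (∑ i ∈ Finset.range (d + F + 1), cc h (coeff i (f : ℚ⟦X⟧)) * v i) +
        r * v d := by
      apply Subtype.ext
      rw [Subring.coe_add, Subring.coe_mul, AddSubmonoidClass.coe_finsetSum]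
      ext n
      rw [map_add, map_sum, hvc d, if_pos ⟨h.d0, h.dpos⟩, coeff_mul_X_pow']
      have hterm : ∀ i ∈ Finset.range (d + F + 1),
          coeff n ((cc h (coeff i (f : ℚ⟦X⟧)) * v i : R h) : ℚ⟦X⟧) =
            if i = n then coeff n (f : ℚ⟦X⟧) else 0 := by
        intro i _
        rw [Subring.coe_mul, coe_cc, hvc, coeff_C_mul]
        split_ifs with h1 h2 h2
        · rw [coeff_X_pow, if_pos h2.symm, h2, mul_one]
        · rw [coeff_X_pow, if_neg (Ne.symm h2), mul_zero]
        · subst h2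
          rw [map_zero, mul_zero]
          by_cases hG : G i
          · have : i = 0 := by
              by_contra h0
              exact h1 ⟨hG, Nat.pos_of_ne_zero h0⟩
            subst this
            rw [coeff_zero_eq_constantCoeff_apply, hf]
          · exact (f.2 i hG).symm
        · rw [map_zero, mul_zero]
      rw [Finset.sum_congr rfl hterm, Finset.sum_ite_eq']
      simp only [Finset.mem_range, hr, coeff_mk]
      split_ifs with h1 h2 h3 h3 h4
      · rw [add_zero]
      · omega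
      · rw [add_zero]
      · omega
      · rw [zero_add, Nat.sub_add_cancel h3]
      · omega
    rw [key]
    refine add_mem (sum_mem fun i hi => Ideal.mul_mem_left _ _ (Ideal.subset_span ?_))
      (Ideal.mul_mem_left _ _ (Ideal.subset_span ?_))
    · exact Finset.mem_coe.2 (Finset.mem_image_of_mem _ hi)
    · exact Finset.mem_coe.2 (Finset.mem_image_of_mem _ (Finset.mem_range.2 (by omega)))

instance instNoeth : IsNoetherianRing (R h) := by
  refine IsNoetherianRing.of_prime_ne_bot fun I hI hne => ?_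
  obtain ⟨x, hxI, hx0⟩ := Submodule.exists_mem_ne_zero_of_ne_bot hne
  have h1 : IsLocalRing.maximalIdeal (R h) ≤ I :=
    (maximal_le_radical h hx0).trans
      ((Ideal.IsRadical.radical_le_iff hI.isRadical).2
        ((Ideal.span_singleton_le_iff_mem I).2 hxI))
  have h2 : IsLocalRing.maximalIdeal (R h) = I :=
    (IsLocalRing.maximalIdeal.isMaximal (R h)).eq_of_le hI.ne_top h1
  rw [← h2]
  exact maximal_fg h

include h in
theorem F_pos : 0 < F := by
  rcases Nat.eq_zero_or_pos F with h0 | h0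
  · exact absurd (h0 ▸ h.zero) h.notF
  · exact h0

include h in
theorem s_pos : 0 < s := by
  rcases Nat.eq_zero_or_pos s with h0 | h0
  · exact absurd (h0 ▸ h.zero) h.nots
  · exact h0

/-- elements of the socle modulo `X ^ d` -/
theorem socle {a : R h}
    (ha : ∀ m ∈ IsLocalRing.maximalIdeal (R h), a * m ∈ Ideal.span ({tp h d h.d0} : Set (R h))) :
    ∃ r : R h, a = cc h (coeff (F + d) (a : ℚ⟦X⟧)) * tp h (F + d) (h.big _ (by
      have := h.dpos; omega)) + tp h d h.d0 * r := by
  classical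
  have hz : ∀ k, k ≠ F + d → ¬ (d ≤ k ∧ G (k - d)) → coeff k (a : ℚ⟦X⟧) = 0 := by
    intro k hk hn
    have hkF : k ≤ F + d := by
      by_contra hlt
      exact hn ⟨by omega, h.big _ (by omega)⟩
    have hG : G (F + d - k) := by
      by_cases hkd : d ≤ k
      · have h1 : ¬ G (k - d) := fun h2 => hn ⟨hkd, h2⟩
        have h2 := h.symm (k - d) (by omega) h1
        have h3 : F - (k - d) = F + d - k := by omega
        rwa [h3] at h2
      · exact h.big _ (by omega)
    have h1 := ha _ (tp_mem h hG (by omega))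
    rw [Ideal.mem_span_singleton] at h1
    obtain ⟨r, hr⟩ := h1
    have h2 := congrArg (fun f : R h => coeff (F + d) (f : ℚ⟦X⟧)) hr
    simp only [Subring.coe_mul, coe_tp] at h2
    rw [coeff_mul_X_pow', if_pos (by omega), mul_comm (X ^ d), coeff_mul_X_pow',
      if_pos (by omega)] at h2
    have h3 : F + d - (F + d - k) = k := by omega
    have h4 : F + d - d = F := by omega
    rw [h3, h4, r.2 F h.notF] at h2
    exact h2
  refine ⟨⟨mk fun n => if G n then coeff (n + d) (a : ℚ⟦X⟧) else 0, by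
    intro n hn
    rw [coeff_mk, if_neg hn]⟩, ?_⟩
  apply Subtype.ext
  ext n
  rw [Subring.coe_add, Subring.coe_mul, Subring.coe_mul, coe_cc, coe_tp, coe_tp, map_add,
    coeff_C_mul, coeff_X_pow, mul_comm (X ^ d), coeff_mul_X_pow', coeff_mk]
  by_cases hn : n = F + d
  · subst hn
    rw [if_pos rfl, if_pos (by omega), Nat.add_sub_cancel, if_neg h.notF, mul_one, add_zero]
  · rw [if_neg hn, mul_zero, zero_add]
    by_cases hd : d ≤ n
    · rw [if_pos hd]
      split_ifs with h1
      · rw [Nat.sub_add_cancel hd]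
      · exact hz n hn fun h2 => h1 h2.2
    · rw [if_neg hd]
      exact hz n hn fun h2 => hd h2.1

theorem gorenstein :
    ∃ x : R h, x ≠ 0 ∧ x ∈ IsLocalRing.maximalIdeal (R h) ∧
      ∀ a b : R h,
        (∀ m ∈ IsLocalRing.maximalIdeal (R h), a * m ∈ Ideal.span ({x} : Set (R h))) →
        (∀ m ∈ IsLocalRing.maximalIdeal (R h), b * m ∈ Ideal.span ({x} : Set (R h))) →
        a ∉ Ideal.span ({x} : Set (R h)) →
        ∃ r : R h, b - r * a ∈ Ideal.span ({x} : Set (R h)) := by
  refine ⟨tp h d h.d0, tp_ne_zero h _ _, tp_mem h h.d0 h.dpos, fun a b ha hb hna => ?_⟩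
  obtain ⟨ra, hra⟩ := socle h ha
  obtain ⟨rb, hrb⟩ := socle h hb
  set α := coeff (F + d) (a : ℚ⟦X⟧) with hα
  set β := coeff (F + d) (b : ℚ⟦X⟧) with hβ
  set T := tp h (F + d) (h.big _ (by have := h.dpos; omega)) with hT
  have hα0 : α ≠ 0 := by
    intro h0
    apply hna
    rw [hra, h0, Ideal.mem_span_singleton]
    refine ⟨ra, ?_⟩
    have : cc h 0 = 0 := Subtype.ext (map_zero _)
    rw [this, zero_mul, zero_add]
  refine ⟨cc h (β / α), ?_⟩
  rw [Ideal.mem_span_singleton]
  refine ⟨rb - cc h (β / α) * ra, ?_⟩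
  have hc : cc h (β / α) * cc h α = cc h β := by
    apply Subtype.ext
    change (C (β / α) : ℚ⟦X⟧) * C α = C β
    rw [← map_mul, div_mul_cancel₀ _ hα0]
  calc b - cc h (β / α) * a
      = (cc h β * T + tp h d h.d0 * rb) - cc h (β / α) * (cc h α * T + tp h d h.d0 * ra) := by
        rw [← hra, ← hrb]
    _ = (cc h β - cc h (β / α) * cc h α) * T + tp h d h.d0 * (rb - cc h (β / α) * ra) := by
        ring
    _ = _ := by rw [hc, sub_self, zero_mul, zero_add]

end

end Pool.Agent.HunekeWiegand
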